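import Pool.Agent.X69.Ric.InsL
import Pool.Agent.X69.Ric.PatC

/-!
# Patterns in sets of primes `p` with `p + 2` and `p + 6` prime or almost prime, and for several types of tuples
# at once

Let `b 0, ..., b (g - 1)` be different positive shifts such that for no prime `q` one of the numbers `n`,
`n + b i` is always divisible by `q` (for instance `2, 6`; or `4, 6`).
(1) All but at most `ε X / (log X) ^ (g + 1)` elements of an arbitrary set `S` of integers `n` in an interval
`(A, A + X]`, for which `n` and the `n + b i` have no prime factors up to `X ^ κ`, are centres of patterns in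
`S` of the predicted number, with differences up to `D`, for every `D ≥ (log X) ^ B`.
(2) `M` such sets, for `M` types `b_1, ..., b_M` of tuples, in `M` arbitrary intervals of length `X`,
with at least `δ X / (log X) ^ (g + 1)` elements each have common difference vectors: for a positive proportion
of the vectors `d ∈ {1, ..., D} ^ m` the `j`-th set contains for every `P ⊆ {0, ..., k - 1} ^ m` with `0 ∈ P`
the number of patterns `n + f · d`, `f ∈ P`, predicted for `b_j`, for all `j` at once.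
(3) The primes `n` in `(X, 2 X]` for which the `n + b i` have at most `r` prime factors, all larger than
`n ^ (1 / r)`, are such a set, so that (2) is unconditional for its dense subsets.
(4) `2, 6` (the triples of the question) and `4, 6` are admissible.

The proof uses the theorems of `Pool.Agent.X26` and `Pool.Agent.X69` (in this run) on patterns in dense sets of
integers without small prime factors and the lower bound for the set in (3) of the starting library.
-/

set_option autoImplicit false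

namespace Pool.Agent.Results.MP_3f8e47_nt.CommonPatterns

open Filter

/-- The shifts are different and positive, and for every prime `p` there is an `m` such that `p` divides neither
`m` nor one of the `m + b i`. -/
def Admissible {g : ℕ} (b : Fin g → ℕ) : Prop :=
  Function.Injective b ∧ (∀ i, b i ≠ 0) ∧ ∀ p : ℕ, p.Prime → ∃ m : ℕ, ¬ p ∣ m ∧ ∀ i, ¬ p ∣ m + b i

/-- `q` divides `n` or one of the `n + b i`. -/
def Divides {g : ℕ} (b : Fin g → ℕ) (q n : ℕ) : Prop := q ∣ n ∨ ∃ i, q ∣ n + b i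

/-- All prime factors of `n` and of the `n + b i` are larger than `y`. -/
def Rough {g : ℕ} (b : Fin g → ℕ) (y : ℝ) (n : ℕ) : Prop := ∀ q : ℕ, q.Prime → Divides b q n → y < q

/-- The integer `f · d = f 0 * d 0 + f 1 * d 1 + ...`. -/
def dot {m : ℕ} (f d : Fin m → ℕ) : ℕ := ∑ i, f i * d i

/-- `n` is a centre in `S` for `d`: all the integers `n + f · d` with `|f i| ≤ K` for all `i` are in `S`. -/
def Centre (K : ℕ) (S : Set ℕ) {m : ℕ} (n : ℕ) (d : Fin m → ℕ) : Prop :=
  ∀ f : Fin m → ℤ, (∀ i, |f i| ≤ K) → ∃ s ∈ S, (s : ℤ) = n + ∑ i, f i * (d i : ℤ)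

/-- The number of the vectors `d ∈ {1, ..., D} ^ m` for which `n` is a centre in `S`. -/
noncomputable def patterns (K m D : ℕ) (S : Set ℕ) (n : ℕ) : ℕ :=
  {d : Fin m → ℕ | (∀ i, 1 ≤ d i ∧ d i ≤ D) ∧ Centre K S n d}.ncard

/-- The number of the residues `u` modulo `q` such that `q` divides `n` or one of the `n + b i` for
`n = u + f · d` with some `f ∈ P`. -/
noncomputable def omega {g : ℕ} (b : Fin g → ℕ) {m : ℕ} (d : Fin m → ℕ) (P : Finset (Fin m → ℕ)) (q : ℕ) : ℕ :=
  {u : ℕ | 1 ≤ u ∧ u ≤ q ∧ ∃ f ∈ P, Divides b q (u + dot f d)}.ncard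

/-- The product of the `1 - w q / q` over the primes `q ≤ X`. -/
noncomputable def product (w : ℕ → ℕ) (X : ℕ) : ℝ :=
  ∏ q ∈ (Finset.Icc 1 X).filter Nat.Prime, (1 - (w q : ℝ) / q)

/-- The number of the `n ∈ S` such that all the `n + f · d`, `f ∈ P`, are in `S`. -/
noncomputable def count (S : Set ℕ) {m : ℕ} (d : Fin m → ℕ) (P : Finset (Fin m → ℕ)) : ℕ :=
  {n : ℕ | n ∈ S ∧ ∀ f ∈ P, n + dot f d ∈ S}.ncard

/-- For all `P ⊆ {0, ..., k - 1} ^ m` with `0 ∈ P`: the integers `f · d`, `f ∈ P`, are different, and for all `j`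
the conditions modulo the primes are solvable and the set `S j` contains at least
`c X ∏ (1 - omega (b j) d P q / q)` of the patterns `n + f · d`, `f ∈ P`. -/
def Common {M g m : ℕ} (b : Fin M → Fin g → ℕ) (c : ℝ) (k X : ℕ) (S : Fin M → Set ℕ) (d : Fin m → ℕ) : Prop :=
  ∀ P : Finset (Fin m → ℕ), (∀ f ∈ P, ∀ i, f i < k) → (fun _ => 0) ∈ P →
    Set.InjOn (fun f => dot f d) (P : Set (Fin m → ℕ)) ∧ ∀ j, (∀ q : ℕ, q.Prime → omega (b j) d P q < q) ∧
      c * (X * product (omega (b j) d P) X) ≤ (count (S j) d P : ℝ)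

/-- The primes `n` such that the `n + b i` have at most `r` prime factors each, counted with multiplicity, all of
them larger than `n ^ (1 / r)`. -/
def Almost {g : ℕ} (b : Fin g → ℕ) (r : ℕ) : Set ℕ :=
  {n | n.Prime ∧ ∀ i, ArithmeticFunction.cardFactors (n + b i) ≤ r ∧
    ∀ q : ℕ, q.Prime → q ∣ n + b i → (n : ℝ) ^ (1 / (r : ℝ)) < q}

/-- **Patterns.** -/
theorem result (g m : ℕ) :
    (∀ b : Fin g → ℕ, Admissible b → ∀ (K : ℕ) (κ ε : ℝ), 1 ≤ K → 0 < κ → κ ≤ 1 → 0 < ε →
      ∃ c : ℝ, 0 < c ∧ ∃ B : ℕ, ∀ᶠ X : ℕ in atTop,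
      ∀ A D : ℕ, Real.log X ^ B ≤ D → D ≤ X → ∀ S : Set ℕ, S ⊆ Set.Ioc A (A + X) →
        (∀ n ∈ S, Rough b ((X : ℝ) ^ κ) n) →
        ({n : ℕ | n ∈ S ∧ (patterns K m D S n : ℝ) <
          c * ((D : ℝ) ^ m / Real.log X ^ ((g + 1) * ((2 * K + 1) ^ m - 1)))}.ncard : ℝ) ≤
            ε * X / Real.log X ^ (g + 1)) ∧
    (∀ (M : ℕ) (b : Fin M → Fin g → ℕ), (∀ j, Admissible (b j)) → ∀ (k : ℕ) (κ δ : ℝ), 0 < κ → κ ≤ 1 → 0 < δ →
      ∃ c : ℝ, 0 < c ∧ ∃ B : ℕ, ∀ᶠ X : ℕ in atTop,
      ∀ D : ℕ, Real.log X ^ B ≤ D → D ≤ X → ∀ (A : Fin M → ℕ) (S : Fin M → Set ℕ),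
        (∀ j, S j ⊆ Set.Ioc (A j) (A j + X)) → (∀ j, ∀ n ∈ S j, Rough (b j) ((X : ℝ) ^ κ) n) →
        (∀ j, δ * X / Real.log X ^ (g + 1) ≤ ((S j).ncard : ℝ)) →
        c * (D : ℝ) ^ m ≤ ({d : Fin m → ℕ | (∀ i, 1 ≤ d i ∧ d i ≤ D) ∧ Common b c k X S d}.ncard : ℝ)) ∧
    (∀ b : Fin g → ℕ, Admissible b → ∃ r₀ : ℕ, 2 ≤ r₀ ∧ ∀ r : ℕ, r₀ ≤ r → ∃ δ : ℝ, 0 < δ ∧ ∀ᶠ X : ℕ in atTop,
      δ * X / Real.log X ^ (g + 1) ≤ ((Almost b r ∩ Set.Ioc X (X + X)).ncard : ℝ) ∧
      ∀ n ∈ Almost b r ∩ Set.Ioc X (X + X), Rough b ((X : ℝ) ^ (1 / (r : ℝ))) n) ∧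
    Admissible ![2, 6] ∧ Admissible ![4, 6] := by
  have H : ∀ b : Fin g → ℕ, Admissible b → Pool.Agent.X69.Ric.PSys (Pool.Agent.X69.Ric.InsL.FL b)
      (Pool.Agent.X69.Ric.InsL.vL b) :=
    fun b hb => Pool.Agent.X69.Ric.InsL.psys b hb.1 hb.2.1 hb.2.2
  refine ⟨fun b hb K κ ε hK hκ hκ1 hε => ?_, fun M b hb k κ δ hκ hκ1 hδ => ?_, fun b hb => ?_, ?_, ?_⟩
  · exact (H b hb).typ (Divides b) (fun q n _ => Iff.rfl) m K hK κ ε hκ hκ1 hε
  · exact Pool.Agent.X69.Ric.PSys.common (M := M) (fun j => H (b j) (hb j))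
      (fun j => Divides (b j)) (fun j q n _ => Iff.rfl) m k κ δ hκ hκ1 hδ
  · obtain ⟨r₀, hr₀, h⟩ := (H b hb).dyadic
    refine ⟨r₀, hr₀, fun r hr => ?_⟩
    obtain ⟨c, hc, h1⟩ := h r hr
    refine ⟨c, hc, ?_⟩
    filter_upwards [h1] with X hX1
    refine ⟨hX1, fun n hn q hq hd => ?_⟩
    exact Pool.Agent.X69.Ric.AVp_gt r (hr₀.trans hr) hn.1 hn.2.1 q hq hd
  · refine ⟨?_, ?_, ?_⟩
    · intro i j
      fin_cases i <;> fin_cases j <;> simp
    · intro i
      fin_cases i <;> simp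
    · intro p hp
      by_cases h37 : p = 3 ∨ p = 7
      · refine ⟨2, ?_, ?_⟩
        · rcases h37 with rfl | rfl <;> norm_num
        · intro i
          rcases h37 with rfl | rfl <;> fin_cases i <;> norm_num
      · push Not at h37
        refine ⟨1, fun h => hp.one_lt.ne' (Nat.dvd_one.1 h), ?_⟩
        intro i
        fin_cases i
        · intro h
          have h1 : p ∣ 3 := by simpa using h
          exact h37.1 ((Nat.prime_dvd_prime_iff_eq hp Nat.prime_three).1 h1)
        · intro h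
          have h1 : p ∣ 7 := by simpa using h
          exact h37.2 ((Nat.prime_dvd_prime_iff_eq hp (by norm_num)).1 h1)
  · refine ⟨?_, ?_, ?_⟩
    · intro i j
      fin_cases i <;> fin_cases j <;> simp
    · intro i
      fin_cases i <;> simp
    · intro p hp
      by_cases h57 : p = 5 ∨ p = 7
      · refine ⟨2, ?_, ?_⟩
        · rcases h57 with rfl | rfl <;> norm_num
        · intro i
          rcases h57 with rfl | rfl <;> fin_cases i <;> norm_num
      · push Not at h57
        refine ⟨1, fun h => hp.one_lt.ne' (Nat.dvd_one.1 h), ?_⟩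
        intro i
        fin_cases i
        · intro h
          have h1 : p ∣ 5 := by simpa using h
          exact h57.1 ((Nat.prime_dvd_prime_iff_eq hp (by norm_num)).1 h1)
        · intro h
          have h1 : p ∣ 7 := by simpa using h
          exact h57.2 ((Nat.prime_dvd_prime_iff_eq hp (by norm_num)).1 h1)

end Pool.Agent.Results.MP_3f8e47_nt.CommonPatterns
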