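import Pool.Agent.X32.Dev.FinB

/-!
# The gcd recursion for prime triples: typical and large deviations of `f(N)` from `N`

(1) In every interval `(X, X + Y]` with `X ≥ Y` and `Y` large at least `Y / (log Y) ^ 3` of the `N` have
`N - f(N) ≥ Y ^ c`. (2) In every such interval at most `C H Y / (log Y) ^ 3` of the `N` have `N - f(N) < H`; so
`N - f(N)` is at least `(log N) ^ 3 / ψ(N)` for almost all `N`, for every `ψ` that tends to infinity.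
-/

set_option autoImplicit false

namespace Pool.Agent.Results.MP_3f8e47_nt.LargeDeviations

open Finset

/-- The 3-periodic sequence `2, 6, 0, 2, 6, 0, …` (indexed from 1). -/
def b (n : ℕ) : ℕ := if n % 3 = 1 then 2 else if n % 3 = 2 then 6 else 0

/-- For the recursion of the problem with the parameter `N` the first zero `f` satisfies `f + H ≤ N`. -/
def Far (N : ℕ) (H : ℝ) : Prop :=
  ∀ a : ℕ → ℤ, a 1 = (N : ℤ) - 6 →
    (∀ n : ℕ, 2 ≤ n → a n = a (n - 1) - ((Int.gcd (a (n - 1)) ((n + b n : ℕ) : ℤ) : ℕ) : ℤ)) →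
    ∀ f : ℕ, IsLeast {n : ℕ | 1 ≤ n ∧ a n = 0} f → (f : ℝ) + H ≤ N

open Classical in
theorem result :
    (∃ c : ℝ, 0 < c ∧ ∃ Y₀ : ℕ, ∀ Y X : ℕ, Y₀ ≤ Y → Y ≤ X →
      (Y : ℝ) / Real.log Y ^ 3 ≤
        (((Ioc X (X + Y)).filter (fun N : ℕ => Far N ((Y : ℝ) ^ c))).card : ℝ)) ∧
    (∃ C : ℝ, 0 < C ∧ ∃ Y₀ : ℕ, ∀ Y X : ℕ, Y₀ ≤ Y → Y ≤ X → ∀ H : ℝ, 1 ≤ H →
      (((Ioc X (X + Y)).filter (fun N : ℕ => ¬ Far N H)).card : ℝ) ≤ C * H * Y / Real.log Y ^ 3) := by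
  refine ⟨?_, ?_⟩
  · obtain ⟨c, hc, Y₀, h⟩ := Pool.Agent.X32.Dev.manyB
    refine ⟨c, hc, Y₀, fun Y X hY hYX => ?_⟩
    obtain ⟨S, hS1, hS2, hS3⟩ := h Y X hY hYX
    refine hS3.trans ?_
    rw [Nat.cast_le]
    apply card_le_card
    intro N hN
    rw [mem_filter]
    exact ⟨hS1 hN, hS2 N hN⟩
  · obtain ⟨C, hC, Y₀, h⟩ := Pool.Agent.X32.Dev.typicalB
    refine ⟨C, hC, Y₀, fun Y X hY hYX H hH => ?_⟩
    exact h Y X hY hYX H hH _ (filter_subset _ _) (fun N hN => (mem_filter.1 hN).2)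

end Pool.Agent.Results.MP_3f8e47_nt.LargeDeviations
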