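import Pool.Agent.X69.Ric.InsL

/-!
# The primes `p` with `p + 2` and `p + 6` prime or almost prime: energy and pair correlations of the multiples

For every set `A = {a 0 < a 1 < ...}` of integers `n` such that `n`, `n + 2` and `n + 6` have no prime factors
below `n ^ δ`, with at least `c X / (log X) ^ 3` elements up to `X` for all large `X`, the additive energy of the
first `N` elements is `O (N ^ 3 / (log N) ^ 3)` and for almost all real `α` the sequence `a k α` has Poissonian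
pair correlations modulo one. The primes `p` for which `p + 2` and `p + 6` have at most `r` prime factors, all
larger than `p ^ (1 / r)`, are such a set.
-/

set_option autoImplicit false

namespace Pool.Agent.Results.MP_3f8e47_nt.PairCorrelationsPrimes

open Filter MeasureTheory

/-- `A` has at least `c X / (log X) ^ 3` elements in `[1, X]`, for some `c > 0` and all large `X`. -/
def Many (A : Set ℕ) : Prop :=
  ∃ c : ℝ, 0 < c ∧ ∀ᶠ X : ℕ in atTop, c * X / Real.log X ^ 3 ≤ ((A ∩ Set.Icc 1 X).ncard : ℝ)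

/-- No prime factor of `n`, `n + 2` and `n + 6` is less than `n ^ δ`. -/
def Rough (δ : ℝ) (n : ℕ) : Prop := ∀ q : ℕ, q.Prime → (q ∣ n ∨ q ∣ n + 2 ∨ q ∣ n + 6) → (n : ℝ) ^ δ ≤ q

/-- The primes `p` such that `p + 2` and `p + 6` have at most `r` prime factors each, counted with multiplicity,
all of them larger than `p ^ (1 / r)`. -/
def Almost (r : ℕ) : Set ℕ :=
  {p | p.Prime ∧ ∀ n ∈ ({p + 2, p + 6} : Set ℕ), ArithmeticFunction.cardFactors n ≤ r ∧
    ∀ q : ℕ, q.Prime → q ∣ n → (p : ℝ) ^ (1 / (r : ℝ)) < q}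

/-- The additive energy of the first `N` elements of `A = {a 0 < a 1 < ...}`: the number of the quadruples
`(i, j, k, l)` of indices below `N` with `a i + a j = a k + a l`. -/
noncomputable def energy (A : Set ℕ) (N : ℕ) : ℕ :=
  (((Finset.range N ×ˢ Finset.range N) ×ˢ (Finset.range N ×ˢ Finset.range N)).filter
    (fun p => Nat.nth (· ∈ A) p.1.1 + Nat.nth (· ∈ A) p.1.2 =
      Nat.nth (· ∈ A) p.2.1 + Nat.nth (· ∈ A) p.2.2)).card

/-- The multiples `a 0 α, a 1 α, ...` of `α` by the elements of `A` have Poissonian pair correlations modulo one: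
for every `s > 0` the number of the pairs `(k, l)` of distinct indices below `N` with `‖a k α - a l α‖ < s / N`
(distance to the nearest integer), divided by `N`, tends to `2 s`. -/
def Poissonian (A : Set ℕ) (α : ℝ) : Prop := ∀ s : ℝ, 0 < s →
  Tendsto (fun N : ℕ => (1 / (N : ℝ)) * ((((Finset.range N) ×ˢ (Finset.range N)).filter
    (fun p => p.1 ≠ p.2 ∧
      |(Nat.nth (· ∈ A) p.1 : ℝ) * α - (Nat.nth (· ∈ A) p.2 : ℝ) * α -
        round ((Nat.nth (· ∈ A) p.1 : ℝ) * α - (Nat.nth (· ∈ A) p.2 : ℝ) * α)| < s / N)).card : ℝ))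
    atTop (nhds (2 * s))

/-- **Energy and pair correlations.** -/
theorem result :
    (∀ A : Set ℕ, ∀ δ : ℝ, 0 < δ → (∀ n ∈ A, Rough δ n) → Many A →
      (∃ C : ℝ, 0 < C ∧ ∀ᶠ N : ℕ in atTop, (energy A N : ℝ) ≤ C * ((N : ℝ) ^ 3 / Real.log N ^ 3)) ∧
      ∀ᵐ α : ℝ, Poissonian A α) ∧
    ∃ r₀ : ℕ, 2 ≤ r₀ ∧ ∀ r : ℕ, r₀ ≤ r → Many (Almost r) ∧
      (∃ C : ℝ, 0 < C ∧ ∀ᶠ N : ℕ in atTop, (energy (Almost r) N : ℝ) ≤ C * ((N : ℝ) ^ 3 / Real.log N ^ 3)) ∧
      ∀ᵐ α : ℝ, Poissonian (Almost r) α := by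
  have H := Pool.Agent.X69.Ric.InsL.triple
  refine ⟨fun A δ hδ hA hM => H.ppc (by norm_num) A δ hδ (fun n hn q hq hd => hA n hn q hq (by
      rcases hd with h | ⟨i, h⟩
      · exact Or.inl h
      · fin_cases i
        · exact Or.inr (Or.inl h)
        · exact Or.inr (Or.inr h))) hM, ?_⟩
  obtain ⟨r₀, hr₀, h⟩ := H.ppcAl (by norm_num)
  refine ⟨r₀, hr₀, fun r hr => ?_⟩
  have h1 := h r hr
  have e : Pool.Agent.X69.Ric.AVp (Pool.Agent.X69.Ric.InsL.vL ![2, 6]) r = Almost r := by
    ext q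
    constructor
    · rintro ⟨h2, h3⟩
      refine ⟨h2, fun n hn => ?_⟩
      rcases hn with rfl | hn
      · exact h3 0
      · rw [Set.mem_singleton_iff] at hn
        subst hn
        exact h3 1
    · rintro ⟨h2, h3⟩
      refine ⟨h2, fun i => ?_⟩
      fin_cases i
      · exact h3 _ (Or.inl rfl)
      · exact h3 _ (Or.inr rfl)
  rw [e] at h1
  exact h1

end Pool.Agent.Results.MP_3f8e47_nt.PairCorrelationsPrimes
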